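import Pool.Agent.H24.Tri.Defs

set_option autoImplicit false

open MeasureTheory Set Complex Metric Filter Topology
open scoped Real ENNReal NNReal ComplexConjugate

namespace Pool.Agent.H24.Tri

/-- volume of a box -/
theorem rigL2_box (z : ℂ) (t a b : ℝ) (ha : 0 ≤ a) (_hb : 0 ≤ b) :
    volume (closedBall z a ×ˢ Icc (t - b) (t + b)) = ENNReal.ofReal (2 * π * a ^ 2 * b) := by
  rw [Measure.volume_eq_prod, Measure.prod_prod, Complex.volume_closedBall, Real.volume_Icc]
  have h1 : ((NNReal.pi : ℝ≥0) : ℝ≥0∞) = ENNReal.ofReal π := by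
    rw [← NNReal.coe_real_pi, ENNReal.ofReal_coe_nnreal]
  rw [h1, ← ENNReal.ofReal_pow ha, ← ENNReal.ofReal_mul (by positivity),
    ← ENNReal.ofReal_mul (by positivity)]
  congr 1
  ring

theorem rigL2_ball (z : ℂ) (t r : ℝ) :
    closedBall (z, t) r = closedBall z r ×ˢ Icc (t - r) (t + r) := by
  rw [← closedBall_prod_same, Real.closedBall_eq_Icc]

/-- density points have small complement in small boxes -/
theorem rigL2_dens (G : Set (ℂ × ℝ)) (hG : MeasurableSet G) (p : ℂ × ℝ)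
    (h : Tendsto (fun r => volume (G ∩ closedBall p r) / volume (closedBall p r))
      (𝓝[>] 0) (𝓝 1)) (η : ℝ) (hη : 0 < η) :
    ∀ᶠ r in 𝓝[>] (0 : ℝ), volume (closedBall p r \ G) ≤ ENNReal.ofReal (η * r ^ 3) := by
  have h1 : Tendsto (fun r => (volume (G ∩ closedBall p r) / volume (closedBall p r)).toReal)
      (𝓝[>] 0) (𝓝 1) := by
    have h' := (ENNReal.tendsto_toReal (a := 1) (by simp)).comp h
    rw [ENNReal.toReal_one] at h'
    exact h'
  have hε : 1 - η / (2 * π) < 1 := by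
    have : 0 < η / (2 * π) := by positivity
    linarith
  filter_upwards [h1.eventually (lt_mem_nhds hε), self_mem_nhdsWithin] with r hr hr0
  rw [mem_Ioi] at hr0
  obtain ⟨z, t⟩ := p
  have hV : volume (closedBall (z, t) r) = ENNReal.ofReal (2 * π * r ^ 3) := by
    rw [rigL2_ball, rigL2_box z t r r hr0.le hr0.le]
    congr 1; ring
  have hVpos : 0 < 2 * π * r ^ 3 := by positivity
  have hsum : volume (closedBall (z, t) r ∩ G) + volume (closedBall (z, t) r \ G) =
      volume (closedBall (z, t) r) := measure_inter_add_sdiff _ hG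
  have hfin : volume (closedBall (z, t) r) ≠ ∞ := by rw [hV]; exact ENNReal.ofReal_ne_top
  have hf1 : volume (closedBall (z, t) r ∩ G) ≠ ∞ :=
    ne_top_of_le_ne_top hfin (measure_mono inter_subset_left)
  have hf2 : volume (closedBall (z, t) r \ G) ≠ ∞ :=
    ne_top_of_le_ne_top hfin (measure_mono sdiff_subset)
  rw [ENNReal.toReal_div, hV, ENNReal.toReal_ofReal hVpos.le, lt_div_iff₀ hVpos, inter_comm] at hr
  have hsum' : (volume (closedBall (z, t) r ∩ G)).toReal +
      (volume (closedBall (z, t) r \ G)).toReal = 2 * π * r ^ 3 := by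
    rw [← ENNReal.toReal_add hf1 hf2, hsum, hV, ENNReal.toReal_ofReal hVpos.le]
  rw [← ENNReal.ofReal_toReal hf2]
  apply ENNReal.ofReal_le_ofReal
  have : (1 - η / (2 * π)) * (2 * π * r ^ 3) = 2 * π * r ^ 3 - η * r ^ 3 := by
    field_simp
  rw [this] at hr
  linarith

/-- L2: Lebesgue density for three angle offsets simultaneously. -/
theorem rigL2 (G : Set (ℂ × ℝ)) (hG : MeasurableSet G) (hpos : 0 < volume G) :
    ∃ δ : ℝ, 0 < δ ∧ ∀ w : Fin 3 → ℝ, (∀ k, |w k| ≤ δ) → ∃ θ : ℝ, ∀ η : ℝ, 0 < η →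
      ∃ Z : Set ℂ, MeasurableSet Z ∧ 0 < volume Z ∧
        (∀ z ∈ Z, 0 < volume {t : ℝ | (z, t) ∈ G}) ∧ ∃ s₀ : ℝ, 0 < s₀ ∧
        ∀ z ∈ Z, ∀ r : ℝ, 0 < r → r ≤ s₀ → ∀ k,
          volume ((closedBall z r ×ˢ Icc (θ + w k - r) (θ + w k + r)) \ G) ≤
            ENNReal.ofReal (η * r ^ 3) := by
  classical
  -- the density property
  set dens : ℂ × ℝ → Prop := fun p =>
    Tendsto (fun r => volume (G ∩ closedBall p r) / volume (closedBall p r)) (𝓝[>] 0) (𝓝 1)
    with hdens
  have hae : ∀ᵐ p ∂(volume : Measure (ℂ × ℝ)), p ∈ G → dens p := by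
    have := Besicovitch.ae_tendsto_measure_inter_div (volume : Measure (ℂ × ℝ)) G
    rwa [ae_restrict_iff' hG] at this
  obtain ⟨N, hN1, hN2, hN3⟩ : ∃ N, {p | ¬ (p ∈ G → dens p)} ⊆ N ∧ MeasurableSet N ∧
      (volume : Measure (ℂ × ℝ)) N = 0 := exists_measurable_superset_of_null (ae_iff.mp hae)
  have hslm : Measurable fun z : ℂ => volume {t : ℝ | (z, t) ∈ G} :=
    measurable_measure_prodMk_left hG
  set G₂ : Set (ℂ × ℝ) := (G ∩ {p | 0 < volume {t : ℝ | (p.1, t) ∈ G}}) \ N with hG₂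
  have hG₂m : MeasurableSet G₂ := by
    refine (hG.inter ?_).diff hN2
    exact measurableSet_lt measurable_const (hslm.comp measurable_fst)
  have hG₂G : G₂ ⊆ G := fun p hp => hp.1.1
  have hG₂d : ∀ p ∈ G₂, dens p := by
    intro p hp
    by_contra hcon
    apply hp.2
    apply hN1
    simp only [mem_ofPred_eq]
    intro hc
    exact hcon (hc (hG₂G hp))
  have hG₂s : ∀ p ∈ G₂, 0 < volume {t : ℝ | (p.1, t) ∈ G} := fun p hp => hp.1.2
  -- G₂ has positive measure
  have hG₂pos : 0 < volume G₂ := by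
    have hA : volume (G ∩ {p | ¬ 0 < volume {t : ℝ | (p.1, t) ∈ G}}) = 0 := by
      have hm : MeasurableSet (G ∩ {p : ℂ × ℝ | ¬ 0 < volume {t : ℝ | (p.1, t) ∈ G}}) :=
        hG.inter (measurableSet_lt measurable_const (hslm.comp measurable_fst)).compl
      rw [Measure.volume_eq_prod, Measure.prod_apply hm]
      rw [lintegral_eq_zero_iff (measurable_measure_prodMk_left hm)]
      filter_upwards with z
      by_cases hz : 0 < volume {t : ℝ | (z, t) ∈ G}
      · have : (Prod.mk z ⁻¹' (G ∩ {p : ℂ × ℝ | ¬ 0 < volume {t : ℝ | (p.1, t) ∈ G}})) = ∅ := by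
          ext t
          simp only [mem_preimage, mem_inter_iff, mem_ofPred_eq, mem_empty_iff_false, iff_false]
          rintro ⟨_, h⟩
          exact h hz
        rw [this]; simp
      · have h0 : volume {t : ℝ | (z, t) ∈ G} = 0 := by
          simpa using hz
        refine measure_mono_null ?_ h0
        intro t ht
        exact ht.1
    have hsub : G ⊆ G₂ ∪ (N ∪ (G ∩ {p | ¬ 0 < volume {t : ℝ | (p.1, t) ∈ G}})) := by
      intro p hp
      by_cases h1 : p ∈ N
      · exact Or.inr (Or.inl h1)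
      · by_cases h2 : 0 < volume {t : ℝ | (p.1, t) ∈ G}
        · exact Or.inl ⟨⟨hp, h2⟩, h1⟩
        · exact Or.inr (Or.inr ⟨hp, h2⟩)
    have hle : volume G ≤ volume G₂ + (volume N +
        volume (G ∩ {p | ¬ 0 < volume {t : ℝ | (p.1, t) ∈ G}})) :=
      (measure_mono hsub).trans ((measure_union_le _ _).trans
        (by gcongr; exact measure_union_le _ _))
    rw [hN3, hA, add_zero, add_zero] at hle
    exact lt_of_lt_of_le hpos hle
  -- a density point of G₂
  obtain ⟨p₀, hp₀⟩ : ∃ p₀ : ℂ × ℝ, Tendsto (fun r => volume (G₂ ∩ closedBall p₀ r) /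
      volume (closedBall p₀ r)) (𝓝[>] 0) (𝓝 1) := by
    have h := Besicovitch.ae_tendsto_measure_inter_div (volume : Measure (ℂ × ℝ)) G₂
    have : (ae ((volume : Measure (ℂ × ℝ)).restrict G₂)).NeBot := by
      rw [ae_neBot, Ne, Measure.restrict_eq_zero]
      exact hG₂pos.ne'
    exact h.exists
  obtain ⟨r₀, hr₀, hr₀pos⟩ := ((rigL2_dens G₂ hG₂m p₀ hp₀ (1 / 2) (by norm_num)).and
    self_mem_nhdsWithin).exists
  obtain ⟨z₀, θ₀⟩ := p₀
  refine ⟨r₀ / 2, by positivity, ?_⟩
  intro w hw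
  -- the good set
  set S : Set (ℂ × ℝ) := {p | ∀ k, (p.1, p.2 + w k) ∈ G₂} with hS
  have hSm : MeasurableSet S := by
    have : S = ⋂ k, (fun p : ℂ × ℝ => (p.1, p.2 + w k)) ⁻¹' G₂ := by
      ext p; simp [hS]
    rw [this]
    refine MeasurableSet.iInter fun k => ?_
    exact (measurable_fst.prodMk (measurable_snd.add_const _)) hG₂m
  have hSpos : 0 < volume S := by
    set H : Set (ℂ × ℝ) := closedBall z₀ r₀ ×ˢ Icc (θ₀ - r₀ / 2) (θ₀ + r₀ / 2) with hH
    have hHv : volume H = ENNReal.ofReal (π * r₀ ^ 3) := by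
      rw [hH, rigL2_box _ _ _ _ hr₀pos.le (by positivity)]
      congr 1; ring
    have hsub : H ⊆ S ∪ ⋃ k, {p ∈ H | (p.1, p.2 + w k) ∉ G₂} := by
      intro p hp
      by_cases h : p ∈ S
      · exact Or.inl h
      · right
        simp only [hS, mem_ofPred_eq, not_forall] at h
        obtain ⟨k, hk⟩ := h
        exact mem_iUnion.mpr ⟨k, hp, hk⟩
    have hk : ∀ k, volume {p ∈ H | (p.1, p.2 + w k) ∉ G₂} ≤ ENNReal.ofReal (1 / 2 * r₀ ^ 3) := by
      intro k
      have hs : {p ∈ H | (p.1, p.2 + w k) ∉ G₂} ⊆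
          (fun p : ℂ × ℝ => p + (0, w k)) ⁻¹' (closedBall (z₀, θ₀) r₀ \ G₂) := by
        rintro ⟨x, t⟩ ⟨hp1, hp2⟩
        rw [hH, mem_prod] at hp1
        obtain ⟨h1, h2, h3⟩ := hp1
        simp only at h1 h2 h3 hp2
        have hwk := abs_le.mp (hw k)
        have he : ((x, t) : ℂ × ℝ) + (0, w k) = (x, t + w k) := by simp
        rw [mem_preimage, he, rigL2_ball]
        refine ⟨⟨h1, ?_, ?_⟩, hp2⟩
        · simp only; linarith [hwk.1]
        · simp only; linarith [hwk.2]
      refine (measure_mono hs).trans ?_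
      have : (volume : Measure (ℂ × ℝ)).IsAddRightInvariant := by
        rw [Measure.volume_eq_prod]; infer_instance
      rw [measure_preimage_add_right]
      exact hr₀
    have hle : volume H ≤ volume S + ∑ k : Fin 3, ENNReal.ofReal (1 / 2 * r₀ ^ 3) := by
      refine (measure_mono hsub).trans ((measure_union_le _ _).trans ?_)
      gcongr
      refine (measure_iUnion_le _).trans ?_
      rw [tsum_fintype]
      exact Finset.sum_le_sum fun k _ => hk k
    by_contra hcon
    have h0 : volume S = 0 := by simpa using hcon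
    rw [h0, zero_add, hHv, Finset.sum_const, Finset.card_univ, Fintype.card_fin] at hle
    have h3 : (3 : ℕ) • ENNReal.ofReal (1 / 2 * r₀ ^ 3) = ENNReal.ofReal (3 / 2 * r₀ ^ 3) := by
      rw [← ENNReal.ofReal_nsmul]
      congr 1
      simp only [nsmul_eq_mul]
      push_cast
      ring
    rw [h3] at hle
    have h4 : 0 < r₀ ^ 3 := by positivity
    have h5 := (ENNReal.ofReal_le_ofReal_iff (by positivity)).mp hle
    nlinarith [Real.pi_gt_three]
  -- choose the angle
  obtain ⟨θ, hθ⟩ : ∃ θ : ℝ, 0 < volume {z : ℂ | (z, θ) ∈ S} := by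
    by_contra hcon
    push Not at hcon
    have : volume S = 0 := by
      rw [Measure.volume_eq_prod, Measure.prod_apply_symm hSm]
      simp only [lintegral_eq_zero_iff (measurable_measure_prodMk_right hSm)]
      filter_upwards with t
      exact le_antisymm (hcon t) (zero_le)
    exact hSpos.ne' this
  refine ⟨θ, ?_⟩
  intro η hη
  set Z₀ : Set ℂ := {z : ℂ | (z, θ) ∈ S} with hZ₀
  have hZ₀m : MeasurableSet Z₀ := (measurable_id.prodMk measurable_const) hSm
  set bad : ℝ → Fin 3 → ℂ → ℝ≥0∞ := fun q k z =>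
    volume ((closedBall z q ×ˢ Icc (θ + w k - q) (θ + w k + q)) \ G) with hbad
  have hbadm : ∀ q k, Measurable (bad q k) := by
    intro q k
    have hm : MeasurableSet {x : ℂ × (ℂ × ℝ) | dist x.2.1 x.1 ≤ q ∧
        x.2.2 ∈ Icc (θ + w k - q) (θ + w k + q) ∧ x.2 ∉ G} := by
      refine MeasurableSet.inter ?_ (MeasurableSet.inter ?_ ?_)
      · exact measurableSet_le ((measurable_fst.comp measurable_snd).dist measurable_fst)
          measurable_const
      · exact (measurable_snd.comp measurable_snd) measurableSet_Icc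
      · exact measurable_snd hG.compl
    have h := measurable_measure_prodMk_left (ν := (volume : Measure (ℂ × ℝ))) hm
    have he : bad q k = fun z => volume (Prod.mk z ⁻¹' {x : ℂ × (ℂ × ℝ) | dist x.2.1 x.1 ≤ q ∧
        x.2.2 ∈ Icc (θ + w k - q) (θ + w k + q) ∧ x.2 ∉ G}) := by
      ext z
      simp only [hbad]
      congr 1
      ext p
      constructor
      · rintro ⟨⟨a, b⟩, c⟩; exact ⟨a, b, c⟩
      · rintro ⟨a, b, c⟩; exact ⟨⟨a, b⟩, c⟩
    rw [he]
    exact h
  set Zn : ℕ → Set ℂ := fun n => {z ∈ Z₀ | ∀ q : ℚ, 0 < (q : ℝ) → (q : ℝ) ≤ 1 / (n + 1) →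
    ∀ k, bad q k z ≤ ENNReal.ofReal (η / 8 * (q : ℝ) ^ 3)} with hZn
  have hZnm : ∀ n, MeasurableSet (Zn n) := by
    intro n
    have : Zn n = Z₀ ∩ ⋂ q : ℚ, ⋂ (_ : 0 < (q : ℝ)), ⋂ (_ : (q : ℝ) ≤ 1 / (n + 1)), ⋂ k,
        {z | bad q k z ≤ ENNReal.ofReal (η / 8 * (q : ℝ) ^ 3)} := by
      ext z; simp [hZn]
    rw [this]
    refine hZ₀m.inter (MeasurableSet.iInter fun q => MeasurableSet.iInter fun _ =>
      MeasurableSet.iInter fun _ => MeasurableSet.iInter fun k => ?_)
    exact measurableSet_le (hbadm q k) measurable_const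
  have hUn : Z₀ ⊆ ⋃ n, Zn n := by
    intro z hz
    have hz' : ∀ k, (z, θ + w k) ∈ G₂ := hz
    have hev : ∀ᶠ r in 𝓝[>] (0 : ℝ), ∀ k : Fin 3,
        volume (closedBall (z, θ + w k) r \ G) ≤ ENNReal.ofReal (η / 8 * r ^ 3) := by
      rw [eventually_all]
      intro k
      exact rigL2_dens G hG _ (hG₂d _ (hz' k)) (η / 8) (by positivity)
    rw [eventually_nhdsWithin_iff, Metric.eventually_nhds_iff] at hev
    obtain ⟨ε, hε, hev⟩ := hev
    obtain ⟨n, hn⟩ := exists_nat_one_div_lt hε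
    refine mem_iUnion.mpr ⟨n, hz, ?_⟩
    intro q hq0 hq1 k
    have := hev (y := (q : ℝ)) (by
      rw [Real.dist_eq, sub_zero, abs_of_pos hq0]
      exact lt_of_le_of_lt hq1 hn) hq0 k
    rwa [rigL2_ball] at this
  obtain ⟨n, hn⟩ : ∃ n, 0 < volume (Zn n) := by
    apply exists_measure_pos_of_not_measure_iUnion_null
    exact (lt_of_lt_of_le hθ (measure_mono hUn)).ne'
  refine ⟨Zn n, hZnm n, hn, ?_, 1 / (2 * ((n : ℝ) + 1)), by positivity, ?_⟩
  · intro z hz
    have hz' : ∀ k, (z, θ + w k) ∈ G₂ := hz.1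
    exact hG₂s _ (hz' 0)
  · intro z hz r hr0 hr1 k
    obtain ⟨q, hq1, hq2⟩ := exists_rat_btwn (show r < 2 * r by linarith)
    have hq0 : 0 < (q : ℝ) := hr0.trans hq1
    have hqn : (q : ℝ) ≤ 1 / (n + 1) := by
      have h2 : 2 * (1 / (2 * ((n : ℝ) + 1))) = 1 / ((n : ℝ) + 1) := by
        field_simp
      linarith
    have h := hz.2 q hq0 hqn k
    refine (measure_mono ?_).trans (h.trans ?_)
    · apply sdiff_subset_sdiff_left
      apply Set.prod_mono
      · exact closedBall_subset_closedBall hq1.le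
      · exact Icc_subset_Icc (by linarith) (by linarith)
    · apply ENNReal.ofReal_le_ofReal
      have h8 : (q : ℝ) ^ 3 ≤ 8 * r ^ 3 := by
        calc (q : ℝ) ^ 3 ≤ (2 * r) ^ 3 := by gcongr
          _ = 8 * r ^ 3 := by ring
      nlinarith

/-- L2(c): change of variables along a one-parameter family of incidences. -/
theorem rigL2c (G : Set (ℂ × ℝ)) (hG : MeasurableSet G) (z : ℂ) (θ₀ s c₀ m r₁ r₂ : ℝ)
    (hs : 0 < s) (hc₀ : 0 < c₀) (hm : 0 ≤ m) (ν ν' : ℝ → ℝ) (sh : ℝ → ℂ)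
    (hν : ∀ c ∈ Icc s (2 * s), HasDerivAt ν (ν' c) c)
    (hν' : (∀ c ∈ Icc s (2 * s), c₀ ≤ ν' c) ∨ (∀ c ∈ Icc s (2 * s), ν' c ≤ -c₀))
    (hsh : Measurable sh) (hsh₁ : ∀ c ∈ Icc s (2 * s), ‖sh c‖ ≤ r₁)
    (hν₂ : ∀ c ∈ Icc s (2 * s), |ν c - θ₀| ≤ r₂) :
    volume {p : ℂ × ℝ | p.1 ∈ closedBall z m ∧ p.2 ∈ Icc s (2 * s) ∧
        (p.1 + sh p.2, ν p.2) ∉ G} ≤
      ENNReal.ofReal (1 / c₀) *
        volume ((closedBall z (m + r₁) ×ˢ Icc (θ₀ - r₂) (θ₀ + r₂)) \ G) := by
  classical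
  set I : Set ℝ := Icc s (2 * s) with hI
  have hIm : MeasurableSet I := measurableSet_Icc
  have hcont : ContinuousOn ν I := fun c hc => (hν c hc).continuousAt.continuousWithinAt
  -- a measurable version of ν
  set μ : ℝ → ℝ := fun c => if c ∈ I then ν c else 0 with hμ
  have hμm : Measurable μ := by
    have : μ = I.piecewise ν (fun _ => 0) := by
      ext c; simp [hμ, Set.piecewise]
    rw [this]
    exact hcont.measurable_piecewise continuousOn_const hIm
  have hμI : ∀ c ∈ I, μ c = ν c := fun c hc => by simp [hμ, hc]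
  -- injectivity
  have hinj : InjOn ν I := by
    rcases hν' with h | h
    · have : StrictMonoOn ν I := by
        apply strictMonoOn_of_deriv_pos (convex_Icc _ _) hcont
        intro c hc
        have hc' : c ∈ I := interior_subset hc
        rw [(hν c hc').deriv]
        exact lt_of_lt_of_le hc₀ (h c hc')
      exact this.injOn
    · have : StrictAntiOn ν I := by
        apply strictAntiOn_of_deriv_neg (convex_Icc _ _) hcont
        intro c hc
        have hc' : c ∈ I := interior_subset hc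
        rw [(hν c hc').deriv]
        exact lt_of_le_of_lt (h c hc') (by linarith)
      exact this.injOn
  have habs : ∀ c ∈ I, c₀ ≤ |ν' c| := by
    intro c hc
    rcases hν' with h | h
    · exact (h c hc).trans (le_abs_self _)
    · have := h c hc
      exact (by linarith : c₀ ≤ - ν' c).trans (neg_le_abs _)
  -- slices
  set φ : ℝ → ℝ≥0∞ := fun t => volume {y : ℂ | y ∈ closedBall z (m + r₁) ∧ (y, t) ∉ G} with hφ
  set T : Set (ℂ × ℝ) := {p : ℂ × ℝ | p.1 ∈ closedBall z (m + r₁) ∧ p ∉ G} with hT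
  have hTm : MeasurableSet T :=
    (measurable_fst isClosed_closedBall.measurableSet).inter hG.compl
  have hφm : Measurable φ := by
    have := measurable_measure_prodMk_right (μ := (volume : Measure ℂ)) hTm
    exact this
  -- the left hand side set
  set S : Set (ℂ × ℝ) := {p : ℂ × ℝ | p.1 ∈ closedBall z m ∧ p.2 ∈ I ∧
    (p.1 + sh p.2, μ p.2) ∉ G} with hS
  have hSeq : {p : ℂ × ℝ | p.1 ∈ closedBall z m ∧ p.2 ∈ I ∧
      (p.1 + sh p.2, ν p.2) ∉ G} = S := by
    ext p
    simp only [hS, mem_ofPred_eq]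
    constructor
    · rintro ⟨a, b, c⟩
      exact ⟨a, b, by rwa [hμI _ b]⟩
    · rintro ⟨a, b, c⟩
      exact ⟨a, b, by rwa [hμI _ b] at c⟩
  have hSm : MeasurableSet S := by
    have h1 : Measurable fun p : ℂ × ℝ => (p.1 + sh p.2, μ p.2) :=
      (measurable_fst.add (hsh.comp measurable_snd)).prodMk (hμm.comp measurable_snd)
    exact (measurable_fst isClosed_closedBall.measurableSet).inter
      ((measurable_snd hIm).inter (h1 hG).compl)
  rw [hSeq]
  have hvS : volume S = ∫⁻ c, volume {x : ℂ | (x, c) ∈ S} := by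
    rw [Measure.volume_eq_prod, Measure.prod_apply_symm hSm]
    rfl
  have hslice : ∀ c, volume {x : ℂ | (x, c) ∈ S} ≤ I.indicator (fun c => φ (ν c)) c := by
    intro c
    by_cases hc : c ∈ I
    · rw [indicator_of_mem hc]
      have hsub : {x : ℂ | (x, c) ∈ S} ⊆
          (fun x => x + sh c) ⁻¹' {y : ℂ | y ∈ closedBall z (m + r₁) ∧ (y, ν c) ∉ G} := by
        intro x hx
        simp only [hS, mem_ofPred_eq] at hx
        obtain ⟨h1, h2, h3⟩ := hx
        rw [hμI c hc] at h3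
        refine ⟨?_, h3⟩
        rw [mem_closedBall, dist_eq_norm] at h1 ⊢
        calc ‖x + sh c - z‖ = ‖(x - z) + sh c‖ := by ring_nf
          _ ≤ ‖x - z‖ + ‖sh c‖ := norm_add_le _ _
          _ ≤ m + r₁ := add_le_add h1 (hsh₁ c hc)
      refine (measure_mono hsub).trans ?_
      rw [measure_preimage_add_right]
    · rw [indicator_of_notMem hc]
      have : {x : ℂ | (x, c) ∈ S} = ∅ := by
        ext x
        simp only [hS, mem_ofPred_eq, mem_empty_iff_false, iff_false]
        rintro ⟨_, h, _⟩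
        exact hc h
      simp [this]
  have hstep1 : volume S ≤ ∫⁻ c in I, φ (ν c) := by
    rw [hvS, ← lintegral_indicator hIm]
    exact lintegral_mono hslice
  have hc₀' : ENNReal.ofReal (1 / c₀) * ENNReal.ofReal c₀ = 1 := by
    rw [← ENNReal.ofReal_mul (by positivity)]
    rw [one_div, inv_mul_cancel₀ hc₀.ne']
    simp
  have hstep2 : ∫⁻ c in I, φ (ν c) ≤
      ENNReal.ofReal (1 / c₀) * ∫⁻ c in I, ENNReal.ofReal |ν' c| * φ (ν c) := by
    rw [← lintegral_const_mul' _ _ ENNReal.ofReal_ne_top]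
    apply setLIntegral_mono' hIm
    intro c hc
    calc φ (ν c) = ENNReal.ofReal (1 / c₀) * (ENNReal.ofReal c₀ * φ (ν c)) := by
          rw [← mul_assoc, hc₀', one_mul]
      _ ≤ ENNReal.ofReal (1 / c₀) * (ENNReal.ofReal |ν' c| * φ (ν c)) := by
          gcongr
          exact habs c hc
  have hstep3 : ∫⁻ c in I, ENNReal.ofReal |ν' c| * φ (ν c) = ∫⁻ t in ν '' I, φ t :=
    (lintegral_image_eq_lintegral_abs_deriv_mul hIm
      (fun c hc => (hν c hc).hasDerivWithinAt) hinj φ).symm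
  have himage : ν '' I ⊆ Icc (θ₀ - r₂) (θ₀ + r₂) := by
    rintro _ ⟨c, hc, rfl⟩
    have := abs_le.mp (hν₂ c hc)
    exact ⟨by linarith [this.1], by linarith [this.2]⟩
  have hstep4 : ∫⁻ t in ν '' I, φ t ≤ ∫⁻ t in Icc (θ₀ - r₂) (θ₀ + r₂), φ t :=
    lintegral_mono_set himage
  have hstep5 : ∫⁻ t in Icc (θ₀ - r₂) (θ₀ + r₂), φ t =
      volume ((closedBall z (m + r₁) ×ˢ Icc (θ₀ - r₂) (θ₀ + r₂)) \ G) := by
    have hm' : MeasurableSet ((closedBall z (m + r₁) ×ˢ Icc (θ₀ - r₂) (θ₀ + r₂)) \ G) :=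
      (isClosed_closedBall.measurableSet.prod measurableSet_Icc).diff hG
    rw [Measure.volume_eq_prod, Measure.prod_apply_symm hm', ← lintegral_indicator measurableSet_Icc]
    apply lintegral_congr
    intro t
    by_cases ht : t ∈ Icc (θ₀ - r₂) (θ₀ + r₂)
    · rw [indicator_of_mem ht]
      simp only [hφ]
      congr 1
      ext y
      simp only [mem_ofPred_eq, mem_preimage, Set.mem_sdiff, mem_prod]
      constructor
      · rintro ⟨a, b⟩; exact ⟨⟨a, ht⟩, b⟩
      · rintro ⟨⟨a, _⟩, b⟩; exact ⟨a, b⟩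
    · rw [indicator_of_notMem ht]
      have : (fun x : ℂ => (x, t)) ⁻¹'
          ((closedBall z (m + r₁) ×ˢ Icc (θ₀ - r₂) (θ₀ + r₂)) \ G) = ∅ := by
        ext y
        simp only [mem_preimage, Set.mem_sdiff, mem_prod, mem_empty_iff_false, iff_false]
        rintro ⟨⟨_, h⟩, _⟩
        exact ht h
      rw [this, measure_empty]
  calc volume S ≤ ∫⁻ c in I, φ (ν c) := hstep1
    _ ≤ ENNReal.ofReal (1 / c₀) * ∫⁻ c in I, ENNReal.ofReal |ν' c| * φ (ν c) := hstep2
    _ = ENNReal.ofReal (1 / c₀) * ∫⁻ t in ν '' I, φ t := by rw [hstep3]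
    _ ≤ ENNReal.ofReal (1 / c₀) * ∫⁻ t in Icc (θ₀ - r₂) (θ₀ + r₂), φ t := by gcongr
    _ = _ := by rw [hstep5]

end Pool.Agent.H24.Tri
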